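import Pool.Agent.Work.MP_97b122_ag.Defs
import Pool.Agent.Work.MP_97b122_ag.Kob

open Pool.Agent.Work.MP_97b122_ag

/-- For every `n ≥ 1` and every degree `d ≥ 56 n` there is a non-singular hypersurface of degree
`d` in complex projective `n`-space which is Kobayashi hyperbolic (and contains no non-constant
entire curve). -/
theorem Pool.Agent.Results.MP_97b122_ag.LinearDegree.result :
    ∀ n d : ℕ, 1 ≤ n → 56 * n ≤ d →
      ∃ F : MvPolynomial (Fin (n + 1)) ℂ, F ≠ 0 ∧ F.IsHomogeneous d ∧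
        (∀ x : Fin (n + 1) → ℂ, x ≠ 0 → ∃ i, MvPolynomial.eval x (MvPolynomial.pderiv i F) ≠ 0) ∧
        KobayashiHyperbolic (zeroLocus F) ∧
        ∀ f : ℂ → PS n, HolOn f Set.univ → (∀ z, f z ∈ zeroLocus F) → ∀ z w, f z = f w :=
  fun _ _ hn hd => main hn hd
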